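import Pool.Agent.W172.MK.Stm

/-! # Disagreement level -/

set_option autoImplicit false

namespace Pool.Agent.W318.MK

open Pool.Agent.W172.MK

theorem lvd : P_EE → P_FT → P_HLAM → P_LVD := by
  intro _ hFT hH n hn D u hu hhu
  have hq : (4096 : ℝ) ≤ qq n := by
    unfold qq
    calc (4096 : ℝ) = 2 ^ 12 := by norm_num
      _ ≤ 2 ^ n := pow_le_pow_right₀ (by norm_num) hn
  have hcard : ((Finset.univ : Finset (V n)).card : ℝ) = qq n := by
    unfold qq
    simp [Fintype.card_pi, ZMod.card]
  have hL0 : 0 ≤ L1 D := Finset.sum_nonneg fun a _ => abs_nonneg _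
  obtain ⟨_, hPD, _⟩ := hFT n D u
  obtain ⟨_, hPDu, _⟩ := hFT n (fun b => D b * u b) u
  obtain ⟨_, _, hconv⟩ := hFT n D u
  -- part 1
  have h1 : ∀ a, |hat (fun b => D b * u b) a| ≤ 1 / 8 * L1 D := by
    intro a
    rw [hconv a]
    refine (Finset.abs_sum_le_sum_abs _ _).trans ?_
    rw [L1, Finset.mul_sum]
    refine Finset.sum_le_sum fun c _ => ?_
    rw [abs_mul, mul_comm (1 / 8 : ℝ)]
    exact mul_le_mul_of_nonneg_left (hhu _) (abs_nonneg _)
  -- the l1 norm
  have h2 : ∑ a, |hat (fun b => D b * u b) a| ≤ Real.sqrt (qq n) * L1 D := by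
    have e1 : (∑ a, |hat (fun b => D b * u b) a|) ^ 2 ≤ (Real.sqrt (qq n) * L1 D) ^ 2 := by
      calc (∑ a, |hat (fun b => D b * u b) a|) ^ 2
          ≤ ((Finset.univ : Finset (V n)).card : ℝ) *
            ∑ a, |hat (fun b => D b * u b) a| ^ 2 := sq_sum_le_card_mul_sum_sq
        _ = qq n * ∑ a, (hat (fun b => D b * u b) a) ^ 2 := by
            rw [hcard]
            congr 1
            exact Finset.sum_congr rfl fun a _ => sq_abs _
        _ = ∑ b, (D b) ^ 2 := by
            rw [hPDu, mul_div_cancel₀ _ (by linarith : qq n ≠ 0)]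
            refine Finset.sum_congr rfl fun b _ => ?_
            rcases hu b with h | h <;> simp [h]
        _ = qq n * ∑ a, (hat D a) ^ 2 := by
            rw [hPD, mul_div_cancel₀ _ (by linarith : qq n ≠ 0)]
        _ ≤ qq n * (L1 D) ^ 2 := by
            apply mul_le_mul_of_nonneg_left _ (by linarith)
            calc ∑ a, (hat D a) ^ 2 = ∑ a, |hat D a| ^ 2 :=
                  Finset.sum_congr rfl fun a _ => (sq_abs _).symm
              _ ≤ (∑ a, |hat D a|) ^ 2 :=
                  Finset.sum_sq_le_sq_sum_of_nonneg fun a _ => abs_nonneg _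
        _ = (Real.sqrt (qq n) * L1 D) ^ 2 := by
            rw [mul_pow, Real.sq_sqrt (by linarith)]
    have e2 := abs_le_of_sq_le_sq e1 (by positivity)
    exact (le_abs_self _).trans e2
  have hn1 : 1 ≤ n := by omega
  -- pointwise bound
  have h3 : ∀ a, |hat (Lam u D) a| ≤ (if a = 0 then |hat (fun b => D b * u b) 0| else 0) +
      |hat (fun b => D b * u b) a| / (qq n - 1) := by
    intro a
    rw [hH n hn1 D u a]
    by_cases ha : a = 0
    · rw [if_pos ha, if_pos ha]
      have : 0 ≤ |hat (fun b => D b * u b) a| / (qq n - 1) :=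
        div_nonneg (abs_nonneg _) (by linarith)
      linarith
    · rw [if_neg ha, if_neg ha, zero_add, abs_div, abs_neg, abs_of_pos (show 0 < qq n - 1 by linarith)]
  refine ⟨h1, ?_, ?_⟩
  · have h4 : L1 (Lam u D) ≤ |hat (fun b => D b * u b) 0| +
        (∑ a, |hat (fun b => D b * u b) a|) / (qq n - 1) := by
      calc L1 (Lam u D) ≤ ∑ a, ((if a = 0 then |hat (fun b => D b * u b) 0| else 0) +
            |hat (fun b => D b * u b) a| / (qq n - 1)) := Finset.sum_le_sum fun a _ => h3 a
        _ = _ := by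
            rw [Finset.sum_add_distrib, Finset.sum_ite_eq' Finset.univ (0 : V n),
              if_pos (Finset.mem_univ _), Finset.sum_div]
    have h5 : (∑ a, |hat (fun b => D b * u b) a|) / (qq n - 1) ≤ 1 / 40 * L1 D := by
      rw [div_le_iff₀ (by linarith)]
      refine h2.trans ?_
      have h6 : 40 * Real.sqrt (qq n) ≤ qq n - 1 := by
        have h7 : (64 : ℝ) ≤ Real.sqrt (qq n) := by
          rw [show (64 : ℝ) = Real.sqrt 4096 by
            rw [show (4096 : ℝ) = 64 ^ 2 by norm_num, Real.sqrt_sq (by norm_num)]]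
          exact Real.sqrt_le_sqrt hq
        have h8 : Real.sqrt (qq n) * Real.sqrt (qq n) = qq n :=
          Real.mul_self_sqrt (by linarith)
        nlinarith
      have h9 := mul_le_mul_of_nonneg_right h6 hL0
      linarith
    have h6 := h1 0
    linarith
  · intro a ha
    have h4 := h3 a
    rw [if_neg ha, zero_add] at h4
    refine h4.trans ?_
    rw [div_le_iff₀ (by linarith)]
    have h5 := h1 a
    have h6 : (4095 : ℝ) ≤ qq n - 1 := by linarith
    have h7 := mul_le_mul_of_nonneg_right h6 hL0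
    linarith

end Pool.Agent.W318.MK
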